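import Pool.Agent.N402.VS.Ser
import Pool.Agent.N561.A.Stm

/-! # The coefficients of `log R_d` and their limits -/

set_option autoImplicit false
set_option linter.all false

namespace Pool.Agent.N402.VS

open Filter Topology Complex
open scoped Real

noncomputable def aN (N k : ℕ) : ℂ :=
  if N ∣ k + 1 then 0 else (-1) ^ k / (2 * I * (k + 1) * (N * (Real.sin (π * (k + 1) / N) : ℂ)))

noncomputable def bN (N k : ℕ) : ℂ :=
  if N ∣ k + 1 then 2 * (-1) ^ k * (-1) ^ ((k + 1) / N) / (k + 1) else 0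

noncomputable def aI (k : ℕ) : ℂ := (-1) ^ k / (2 * I * (k + 1) * (π * (k + 1)))

theorem sin_low {N k : ℕ} (hN : 1 ≤ N) (hk : ¬ N ∣ k) : 2 ≤ N * |Real.sin (π * k / N)| := by
  have hN0 : (0 : ℝ) < N := by exact_mod_cast hN
  set s := k % N with hs
  have hs0 : 0 < s := Nat.pos_of_ne_zero fun h => hk (Nat.dvd_of_mod_eq_zero h)
  have hsN : s < N := Nat.mod_lt _ hN
  have hk' : (k : ℝ) = s + N * (k / N : ℕ) := by
    have := Nat.mod_add_div k N
    rw [← hs] at this
    exact_mod_cast this.symm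
  have h1 : |Real.sin (π * k / N)| = |Real.sin (π * s / N)| := by
    have h2 : π * k / N = π * s / N + (k / N : ℕ) * π := by
      rw [hk']; field_simp
    rw [h2, Real.sin_add_nat_mul_pi, abs_mul, abs_pow, abs_neg, abs_one, one_pow, one_mul]
  rw [h1]
  have hs1 : (1 : ℝ) ≤ s := by exact_mod_cast hs0
  have hs2 : (s : ℝ) + 1 ≤ N := by exact_mod_cast hsN
  have hpi := Real.pi_pos
  have key : 2 / N ≤ Real.sin (π * s / N) := by
    rcases le_total (2 * (s : ℝ)) N with h | h
    · have h3 : 2 / π * (π * s / N) ≤ Real.sin (π * s / N) := by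
        apply Real.mul_le_sin (by positivity)
        rw [div_le_div_iff₀ hN0 two_pos]
        nlinarith
      have h4 : 2 / π * (π * s / N) = 2 * s / N := by field_simp
      rw [h4] at h3
      refine le_trans ?_ h3
      gcongr
      linarith
    · have h3 : 2 / π * (π * (N - s) / N) ≤ Real.sin (π * (N - s) / N) := by
        apply Real.mul_le_sin
        · apply div_nonneg (mul_nonneg hpi.le (by linarith)) hN0.le
        · rw [div_le_div_iff₀ hN0 two_pos]
          nlinarith
      have h4 : 2 / π * (π * (N - s) / N) = 2 * (N - s) / N := by field_simp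
      have h5 : π * (N - s) / N = π - π * s / N := by field_simp
      rw [h4, h5, Real.sin_pi_sub] at h3
      refine le_trans ?_ h3
      gcongr
      linarith
  have h6 : 0 < Real.sin (π * s / N) := lt_of_lt_of_le (by positivity) key
  rw [abs_of_pos h6]
  calc (2 : ℝ) = N * (2 / N) := by field_simp
    _ ≤ _ := by gcongr

theorem aN_bd {N : ℕ} (hN : 1 ≤ N) (k : ℕ) : ‖aN N k‖ ≤ 2 := by
  unfold aN
  split_ifs with h
  · simp
  · have h1 := sin_low hN h
    rw [norm_div, norm_mul, norm_mul, norm_mul, norm_mul, norm_pow, norm_neg, norm_one, one_pow,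
      Complex.norm_I, Complex.norm_real, Real.norm_eq_abs, Complex.norm_natCast]
    have h2 : ‖((k : ℂ) + 1)‖ = k + 1 := by
      rw [← Nat.cast_add_one, Complex.norm_natCast]; push_cast; ring
    rw [h2]
    push_cast at h1
    have h3 : (1 : ℝ) ≤ ‖(2 : ℂ)‖ * 1 * (k + 1) * (N * |Real.sin (π * (k + 1) / N)|) := by
      have h4 : ‖(2 : ℂ)‖ = 2 := by simp
      rw [h4]
      have hk : (0 : ℝ) ≤ k := Nat.cast_nonneg k
      nlinarith [mul_nonneg hk (by linarith : (0:ℝ) ≤ (N * |Real.sin (π * (k + 1) / N)|))]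
    rw [div_le_iff₀ (by linarith)]
    linarith

theorem bN_bd (N k : ℕ) : ‖bN N k‖ ≤ 2 := by
  unfold bN
  split_ifs with h
  · rw [norm_div, norm_mul, norm_mul, norm_pow, norm_pow, norm_neg, norm_one, one_pow, one_pow]
    have h2 : ‖((k : ℂ) + 1)‖ = k + 1 := by
      rw [← Nat.cast_add_one, Complex.norm_natCast]; push_cast; ring
    have h4 : ‖(2 : ℂ)‖ = 2 := by simp
    rw [h2, h4, div_le_iff₀ (by positivity)]
    have hk : (0 : ℝ) ≤ k := Nat.cast_nonneg k
    linarith
  · simp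

theorem aI_bd (k : ℕ) : ‖aI k‖ ≤ 2 := by
  unfold aI
  have h2 : ‖((k : ℂ) + 1)‖ = k + 1 := by
    rw [← Nat.cast_add_one, Complex.norm_natCast]; push_cast; ring
  rw [norm_div, norm_mul, norm_mul, norm_mul, norm_mul, norm_pow, norm_neg, norm_one, one_pow,
      Complex.norm_I, Complex.norm_real, h2, Real.norm_of_nonneg Real.pi_pos.le]
  have h4 : ‖(2 : ℂ)‖ = 2 := by simp
  rw [h4]
  have hk : (0 : ℝ) ≤ k := Nat.cast_nonneg k
  have hpi := Real.pi_gt_three
  have h3 : (1 : ℝ) ≤ 2 * 1 * (k + 1) * (π * (k + 1)) := by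
    have : (1:ℝ) ≤ (k + 1) * (k + 1) := by nlinarith
    nlinarith
  rw [div_le_iff₀ (by linarith)]
  linarith

theorem aN_lim (k : ℕ) : Tendsto (fun N => aN N k) atTop (𝓝 (aI k)) := by
  have h1 : Tendsto (fun N : ℕ => (N * Real.sin (π * (k + 1) / N) : ℝ)) atTop
      (𝓝 (π * (k + 1))) := by
    have h2 : Tendsto (fun N : ℕ => π * (k + 1) / (N : ℝ)) atTop (𝓝 0) :=
      tendsto_const_div_atTop_nhds_zero_nat _
    have h3 : Tendsto (fun N : ℕ => π * (k + 1) * Real.sinc (π * (k + 1) / (N : ℝ))) atTop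
        (𝓝 (π * (k + 1) * Real.sinc 0)) :=
      ((Real.continuous_sinc.tendsto 0).comp h2).const_mul _
    rw [Real.sinc_zero, mul_one] at h3
    refine h3.congr' ?_
    filter_upwards [eventually_gt_atTop 0] with N hN
    have hN0 : (0 : ℝ) < N := by exact_mod_cast hN
    have hne : π * (k + 1) / (N : ℝ) ≠ 0 := by
      have := Real.pi_pos
      positivity
    rw [Real.sinc_of_ne_zero hne]
    have hpi := Real.pi_pos
    have hk : (0 : ℝ) < (k : ℝ) + 1 := by positivity
    field_simp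
  have h4 : Tendsto (fun N : ℕ => ((-1) ^ k / (2 * I * (k + 1) *
      ((N * Real.sin (π * (k + 1) / N) : ℝ) : ℂ)) : ℂ)) atTop (𝓝 (aI k)) := by
    unfold aI
    have h5 : Tendsto (fun N : ℕ => (((N * Real.sin (π * (k + 1) / N) : ℝ) : ℂ))) atTop
        (𝓝 ((π : ℂ) * (k + 1))) := by
      have := (Complex.continuous_ofReal.tendsto (π * ((k : ℝ) + 1))).comp h1
      have e : (((π * ((k : ℝ) + 1) : ℝ)) : ℂ) = (π : ℂ) * (k + 1) := by push_cast; ring
      rw [e] at this
      exact this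
    have hk : (k : ℂ) + 1 ≠ 0 := by exact_mod_cast Nat.succ_ne_zero k
    have hpi : (π : ℂ) ≠ 0 := by exact_mod_cast Real.pi_ne_zero
    exact (tendsto_const_nhds (x := ((-1) ^ k : ℂ))).div
      (h5.const_mul (2 * I * (k + 1)))
      (mul_ne_zero (mul_ne_zero (mul_ne_zero two_ne_zero Complex.I_ne_zero) hk)
        (mul_ne_zero hpi hk))
  refine h4.congr' ?_
  filter_upwards [eventually_gt_atTop (k + 1)] with N hN
  have : ¬ N ∣ k + 1 := fun h => absurd (Nat.le_of_dvd (Nat.succ_pos k) h) (by omega)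
  rw [aN, if_neg this]
  push_cast
  rfl

theorem bN_lim (k : ℕ) : Tendsto (fun N => bN N k) atTop (𝓝 0) := by
  refine tendsto_const_nhds.congr' ?_
  filter_upwards [eventually_gt_atTop (k + 1)] with N hN
  have : ¬ N ∣ k + 1 := fun h => absurd (Nat.le_of_dvd (Nat.succ_pos k) h) (by omega)
  rw [bN, if_neg this]

/-- the interpolation -/
noncomputable def rN (N : ℕ) (p : ℂ × ℂ) : ℂ :=
  -I * p.2 * p.1 + (FS (aN N) (p.2 + 2 * π * p.1) - FS (aN N) (p.2 - 2 * π * p.1)) +
    p.1 * FS (bN N) p.2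

theorem term_eq {N : ℕ} (hN : 1 ≤ N) (d k : ℕ) (φ : ℂ) :
    N * (aN N k * Complex.exp (I * (k + 1) * (φ + 2 * π * ((d + 1 : ℕ) / N))) -
      aN N k * Complex.exp (I * (k + 1) * (φ - 2 * π * ((d + 1 : ℕ) / N)))) -
    N * (aN N k * Complex.exp (I * (k + 1) * (φ + 2 * π * (d / N))) -
      aN N k * Complex.exp (I * (k + 1) * (φ - 2 * π * (d / N)))) +
    bN N k * Complex.exp (I * (k + 1) * φ) =
    (-1) ^ (k + 1 + 1) * (Complex.exp (I * (φ + π * (2 * d + 1) / N))) ^ (k + 1) / ((k + 1 : ℕ) : ℂ) +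
    (-1) ^ (k + 1 + 1) * (Complex.exp (I * (φ - π * (2 * d + 1) / N))) ^ (k + 1) / ((k + 1 : ℕ) : ℂ) := by
  have hN0 : (N : ℂ) ≠ 0 := by
    have : N ≠ 0 := by omega
    exact_mod_cast this
  have hk : (k : ℂ) + 1 ≠ 0 := by exact_mod_cast Nat.succ_ne_zero k
  set E := Complex.exp (I * (k + 1) * φ) with hE
  set G := Complex.exp (I * (π * (k + 1) / N)) with hG
  set H := Complex.exp (-(I * (π * (k + 1) / N))) with hH
  have hGH : G * H = 1 := by
    rw [hG, hH, ← Complex.exp_add, add_neg_cancel, Complex.exp_zero]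
  have e1 : Complex.exp (I * (k + 1) * (φ + 2 * π * ((d + 1 : ℕ) / N))) = E * G ^ (2 * d + 2) := by
    rw [hE, hG, ← Complex.exp_nat_mul, ← Complex.exp_add]
    congr 1
    push_cast
    field_simp
    try ring
  have e2 : Complex.exp (I * (k + 1) * (φ - 2 * π * ((d + 1 : ℕ) / N))) = E * H ^ (2 * d + 2) := by
    rw [hE, hH, ← Complex.exp_nat_mul, ← Complex.exp_add]
    congr 1
    push_cast
    field_simp
    ring
  have e3 : Complex.exp (I * (k + 1) * (φ + 2 * π * (d / N))) = E * G ^ (2 * d) := by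
    rw [hE, hG, ← Complex.exp_nat_mul, ← Complex.exp_add]
    congr 1
    push_cast
    field_simp
  have e4 : Complex.exp (I * (k + 1) * (φ - 2 * π * (d / N))) = E * H ^ (2 * d) := by
    rw [hE, hH, ← Complex.exp_nat_mul, ← Complex.exp_add]
    congr 1
    push_cast
    field_simp
    ring
  have e5 : (Complex.exp (I * (φ + π * (2 * d + 1) / N))) ^ (k + 1) = E * G ^ (2 * d + 1) := by
    rw [hE, hG, ← Complex.exp_nat_mul, ← Complex.exp_nat_mul, ← Complex.exp_add]
    congr 1
    push_cast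
    field_simp
  have e6 : (Complex.exp (I * (φ - π * (2 * d + 1) / N))) ^ (k + 1) = E * H ^ (2 * d + 1) := by
    rw [hE, hH, ← Complex.exp_nat_mul, ← Complex.exp_nat_mul, ← Complex.exp_add]
    congr 1
    push_cast
    field_simp
    ring
  rw [e1, e2, e3, e4, e5, e6]
  push_cast
  by_cases h : N ∣ k + 1
  · obtain ⟨m, hm⟩ := h
    have hm' : (k : ℂ) + 1 = N * m := by exact_mod_cast hm
    have hdiv : (k + 1) / N = m := by
      rw [hm]; exact Nat.mul_div_cancel_left m (by omega)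
    have hGm : G = (-1) ^ m := by
      rw [hG, hm', ← Complex.exp_pi_mul_I, ← Complex.exp_nat_mul]
      congr 1
      field_simp
    have hGG : G * G = 1 := by
      rw [hGm, ← mul_pow]; simp
    have hHG : H = G := by
      calc H = (G * G) * H := by rw [hGG, one_mul]
        _ = G * (G * H) := by ring
        _ = G := by rw [hGH, mul_one]
    have hpow : G ^ (2 * d + 1) = G := by
      rw [pow_succ, pow_mul, pow_two, hGG, one_pow, one_mul]
    rw [aN, if_pos ⟨m, hm⟩, bN, if_pos ⟨m, hm⟩, hdiv, ← hGm, hHG, hpow]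
    field_simp
    ring
  · rw [aN, if_neg h, bN, if_neg h]
    have hs := sin_low hN h
    have hs0 : Real.sin (π * (k + 1) / N) ≠ 0 := by
      intro h0
      push_cast at hs
      rw [h0] at hs
      norm_num at hs
    have hsC : ((Real.sin (π * (k + 1) / N) : ℝ) : ℂ) ≠ 0 := by exact_mod_cast hs0
    have hsin : 2 * I * ((Real.sin (π * (k + 1) / N) : ℝ) : ℂ) = G - H := by
      rw [hG, hH, Complex.ofReal_sin]
      push_cast
      have := Complex.two_sin ((π : ℂ) * (k + 1) / N)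
      have h7 : (2 : ℂ) * I * Complex.sin (π * (k + 1) / N) = I * (2 * Complex.sin (π * (k + 1) / N)) := by ring
      rw [h7, this]
      have h8 : -((π : ℂ) * (k + 1) / N) * I = -(I * (π * (k + 1) / N)) := by ring
      have h9 : ((π : ℂ) * (k + 1) / N) * I = (I * (π * (k + 1) / N)) := by ring
      rw [h8, h9]
      linear_combination (Complex.exp (-(I * (π * (k + 1) / N))) - Complex.exp (I * (π * (k + 1) / N))) * Complex.I_mul_I
    have hid : G ^ (2 * d + 2) - H ^ (2 * d + 2) - G ^ (2 * d) + H ^ (2 * d) =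
        (G - H) * (G ^ (2 * d + 1) + H ^ (2 * d + 1)) := by
      have h1 : G * H ^ (2 * d + 1) = H ^ (2 * d) := by
        rw [pow_succ']; rw [← mul_assoc, hGH, one_mul]
      have h2 : H * G ^ (2 * d + 1) = G ^ (2 * d) := by
        rw [pow_succ']; rw [← mul_assoc, mul_comm H G, hGH, one_mul]
      have : (G - H) * (G ^ (2 * d + 1) + H ^ (2 * d + 1)) =
        G ^ (2 * d + 2) + G * H ^ (2 * d + 1) - H * G ^ (2 * d + 1) - H ^ (2 * d + 2) := by ring
      rw [this, h1, h2]; ring
    have hI := Complex.I_ne_zero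
    have hfin : ∀ s : ℂ, s ≠ 0 → 2 * I * s = G - H →
      N * ((-1) ^ k / (2 * I * (k + 1) * (N * s)) * (E * G ^ (2 * d + 2)) -
        (-1) ^ k / (2 * I * (k + 1) * (N * s)) * (E * H ^ (2 * d + 2))) -
      N * ((-1) ^ k / (2 * I * (k + 1) * (N * s)) * (E * G ^ (2 * d)) -
        (-1) ^ k / (2 * I * (k + 1) * (N * s)) * (E * H ^ (2 * d))) + 0 * E =
      (-1) ^ (k + 1 + 1) * (E * G ^ (2 * d + 1)) / (k + 1) +
      (-1) ^ (k + 1 + 1) * (E * H ^ (2 * d + 1)) / (k + 1) := by
      intro s hs0 hs1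
      have h3 : N * ((-1) ^ k / (2 * I * (k + 1) * (N * s)) * (E * G ^ (2 * d + 2)) -
        (-1) ^ k / (2 * I * (k + 1) * (N * s)) * (E * H ^ (2 * d + 2))) -
        N * ((-1) ^ k / (2 * I * (k + 1) * (N * s)) * (E * G ^ (2 * d)) -
        (-1) ^ k / (2 * I * (k + 1) * (N * s)) * (E * H ^ (2 * d))) + 0 * E =
        (-1) ^ k * E / (k + 1) * ((G ^ (2 * d + 2) - H ^ (2 * d + 2) - G ^ (2 * d) + H ^ (2 * d)) /
          (2 * I * s)) := by
        field_simp
        ring
      rw [h3, hid, hs1]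
      have h4 : G - H ≠ 0 := by
        rw [← hs1]
        exact mul_ne_zero (mul_ne_zero two_ne_zero hI) hs0
      field_simp
      ring
    exact hfin _ hsC hsin

end Pool.Agent.N402.VS
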