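import Pool.Agent.N402.VS.LLf

/-! # Interpolation of `log R_d(φ)` by Fourier series -/

set_option autoImplicit false
set_option linter.all false

namespace Pool.Agent.N402.VS

open Filter Topology Complex MeasureTheory
open scoped Real Interval
open Pool.Agent.N561 (LL RR DF S_FOU)
open Pool.Agent.W711.HT (Rp phi)

theorem log_series {z : ℂ} (hz : ‖z‖ < 1) :
    HasSum (fun k : ℕ => (-1) ^ (k + 1 + 1) * z ^ (k + 1) / ((k + 1 : ℕ) : ℂ))
      (Complex.log (1 + z)) := by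
  have h6 := Complex.hasSum_taylorSeries_log hz
  rw [← hasSum_nat_add_iff' 1] at h6
  simp only [Finset.range_one, Finset.sum_singleton, Nat.cast_zero, div_zero, sub_zero] at h6
  exact h6

/-- the recurrence in `d` -/
theorem rN_succ {N : ℕ} (hN : 1 ≤ N) (d : ℕ) {φ : ℂ} (hφ : 0 < φ.im) :
    N * rN N (((d + 1 : ℕ) : ℂ) / N, φ) - N * rN N ((d : ℂ) / N, φ) =
      -I * φ + (Complex.log (1 + Complex.exp (I * (φ + π * (2 * d + 1) / N))) +
        Complex.log (1 + Complex.exp (I * (φ - π * (2 * d + 1) / N)))) := by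
  have hN0 : (N : ℂ) ≠ 0 := by
    have : N ≠ 0 := by omega
    exact_mod_cast this
  have him : ∀ x : ℝ, 0 < (φ + 2 * π * (x : ℂ)).im ∧ 0 < (φ - 2 * π * (x : ℂ)).im := by
    intro x
    have : (2 * π * (x : ℂ)).im = 0 := by
      rw [show (2 * π * (x : ℂ)) = ((2 * π * x : ℝ) : ℂ) by push_cast; ring, Complex.ofReal_im]
    constructor
    · rw [Complex.add_im, this, add_zero]; exact hφ
    · rw [Complex.sub_im, this, sub_zero]; exact hφ
  have hx : ∀ m : ℕ, ((m : ℂ) / N) = (((m : ℝ) / N : ℝ) : ℂ) := by intro m; push_cast; ring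
  have s1 := FS_hasSum (aN_bd hN) (him ((d + 1 : ℕ) / N)).1
  have s2 := FS_hasSum (aN_bd hN) (him ((d + 1 : ℕ) / N)).2
  have s3 := FS_hasSum (aN_bd hN) (him (d / N)).1
  have s4 := FS_hasSum (aN_bd hN) (him (d / N)).2
  have s5 := FS_hasSum (bN_bd N) hφ
  have hS := (((s1.sub s2).mul_left (N : ℂ)).sub ((s3.sub s4).mul_left (N : ℂ))).add s5
  have hn : ∀ x : ℂ, x.im = 0 → ‖Complex.exp (I * (φ + x))‖ < 1 := by
    intro x hx
    rw [Complex.norm_exp, Real.exp_lt_one_iff]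
    simp [hx, hφ]
  have him0 : (π * (2 * d + 1) / N : ℂ).im = 0 := by
    rw [show (π * (2 * d + 1) / N : ℂ) = ((π * (2 * d + 1) / N : ℝ) : ℂ) by push_cast; ring,
      Complex.ofReal_im]
  have l1 := log_series (hn _ him0)
  have l2 := log_series (hn (-(π * (2 * d + 1) / N : ℂ)) (by rw [Complex.neg_im, him0, neg_zero]))
  rw [← sub_eq_add_neg] at l2
  have hL := l1.add l2
  have hfun : (fun k : ℕ => (N : ℂ) * (aN N k * Complex.exp (I * (k + 1) *
        (φ + 2 * π * ((((d + 1 : ℕ) : ℝ) / N : ℝ) : ℂ))) -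
      aN N k * Complex.exp (I * (k + 1) * (φ - 2 * π * ((((d + 1 : ℕ) : ℝ) / N : ℝ) : ℂ)))) -
      (N : ℂ) * (aN N k * Complex.exp (I * (k + 1) * (φ + 2 * π * (((d : ℝ) / N : ℝ) : ℂ))) -
      aN N k * Complex.exp (I * (k + 1) * (φ - 2 * π * (((d : ℝ) / N : ℝ) : ℂ)))) +
      bN N k * Complex.exp (I * (k + 1) * φ)) = fun k : ℕ =>
    (-1) ^ (k + 1 + 1) * (Complex.exp (I * (φ + π * (2 * d + 1) / N))) ^ (k + 1) /
      ((k + 1 : ℕ) : ℂ) +
    (-1) ^ (k + 1 + 1) * (Complex.exp (I * (φ - π * (2 * d + 1) / N))) ^ (k + 1) /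
      ((k + 1 : ℕ) : ℂ) := by
    funext k
    rw [← hx, ← hx]
    exact term_eq hN d k φ
  rw [hfun] at hS
  have huniq := hS.unique hL
  rw [← hx, ← hx] at huniq
  rw [← huniq]
  unfold rN
  simp only
  push_cast
  field_simp
  ring

theorem Rp_succ (N d : ℕ) (φ : ℂ) :
    Rp N (d + 1) φ = Rp N d φ * (Complex.exp (-I * φ) *
      ((1 + Complex.exp (I * (φ + π * (2 * d + 1) / N))) *
        (1 + Complex.exp (I * (φ - π * (2 * d + 1) / N))))) := by
  unfold Rp
  rw [Finset.prod_range_succ]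
  congr 1
  rw [Complex.ofReal_cos, phi]
  push_cast
  rw [Complex.two_cos, Complex.two_cos]
  have e1 : Complex.exp (I * (φ + π * (2 * d + 1) / N)) =
      Complex.exp (φ * I) * Complex.exp (π * (2 * d + 1) / N * I) := by
    rw [← Complex.exp_add]; congr 1; ring
  have e2 : Complex.exp (I * (φ - π * (2 * d + 1) / N)) =
      Complex.exp (φ * I) * Complex.exp (-(π * (2 * d + 1) / N) * I) := by
    rw [← Complex.exp_add]; congr 1; ring
  have e3 : Complex.exp (-I * φ) = Complex.exp (-φ * I) := by congr 1; ring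
  have h1 : Complex.exp (φ * I) * Complex.exp (-φ * I) = 1 := by
    rw [← Complex.exp_add]; simp
  have h2 : Complex.exp (π * (2 * d + 1) / N * I) * Complex.exp (-(π * (2 * d + 1) / N) * I) = 1 := by
    rw [← Complex.exp_add]; simp
  rw [e1, e2, e3]
  set a := Complex.exp (φ * I)
  set a' := Complex.exp (-φ * I)
  set b := Complex.exp (π * (2 * d + 1) / N * I)
  set b' := Complex.exp (-(π * (2 * d + 1) / N) * I)
  linear_combination (-(b + b') - a * b * b') * h1 - a * h2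

theorem Rp_eq {N : ℕ} (hN : 1 ≤ N) {φ : ℂ} (hφ : 0 < φ.im) (d : ℕ) :
    Rp N d φ = Complex.exp (N * rN N ((d : ℂ) / N, φ)) := by
  induction d with
  | zero =>
    have : rN N (((0 : ℕ) : ℂ) / N, φ) = 0 := by
      unfold rN
      simp
    rw [this]
    simp [Rp]
  | succ d ih =>
    have h1 := rN_succ hN d hφ
    have h2 : N * rN N (((d + 1 : ℕ) : ℂ) / N, φ) = N * rN N ((d : ℂ) / N, φ) +
      (-I * φ + (Complex.log (1 + Complex.exp (I * (φ + π * (2 * d + 1) / N))) +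
        Complex.log (1 + Complex.exp (I * (φ - π * (2 * d + 1) / N))))) := by
      rw [← h1]; ring
    have hn : ∀ x : ℂ, x.im = 0 → 1 + Complex.exp (I * (φ + x)) ≠ 0 := by
      intro x hx h
      have h3 : ‖Complex.exp (I * (φ + x))‖ < 1 := by
        rw [Complex.norm_exp, Real.exp_lt_one_iff]
        simp [hx, hφ]
      have h4 : Complex.exp (I * (φ + x)) = -1 := by linear_combination h
      rw [h4, norm_neg, norm_one] at h3
      exact lt_irrefl _ h3
    have him0 : (π * (2 * d + 1) / N : ℂ).im = 0 := by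
      rw [show (π * (2 * d + 1) / N : ℂ) = ((π * (2 * d + 1) / N : ℝ) : ℂ) by push_cast; ring,
        Complex.ofReal_im]
    have n1 := hn _ him0
    have n2 := hn (-(π * (2 * d + 1) / N : ℂ)) (by rw [Complex.neg_im, him0, neg_zero])
    rw [← sub_eq_add_neg] at n2
    rw [Rp_succ, ih, h2, Complex.exp_add, Complex.exp_add, Complex.exp_add, Complex.exp_log n1,
      Complex.exp_log n2]

theorem rN_diff {N : ℕ} (hN : 1 ≤ N) : DifferentiableOn ℂ (rN N) DF := by
  have hpi := Real.pi_pos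
  have h1 : DifferentiableOn ℂ (fun p : ℂ × ℂ => FS (aN N) (p.2 + 2 * π * p.1)) DF := by
    refine (FS_diff (aN_bd hN)).comp (f := fun p : ℂ × ℂ => p.2 + 2 * π * p.1) (by fun_prop) ?_
    intro p hp
    obtain ⟨h1, h2, h3⟩ := hp
    show 0 < (p.2 + 2 * π * p.1).im
    have : (2 * π * p.1).im = 2 * π * p.1.im := by
      rw [show (2 * π * p.1 : ℂ) = ((2 * π : ℝ) : ℂ) * p.1 by push_cast; ring,
        Complex.im_ofReal_mul]
    rw [Complex.add_im, this]
    nlinarith [neg_abs_le p.1.im]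
  have h2 : DifferentiableOn ℂ (fun p : ℂ × ℂ => FS (aN N) (p.2 - 2 * π * p.1)) DF := by
    refine (FS_diff (aN_bd hN)).comp (f := fun p : ℂ × ℂ => p.2 - 2 * π * p.1) (by fun_prop) ?_
    intro p hp
    obtain ⟨h1, h2, h3⟩ := hp
    show 0 < (p.2 - 2 * π * p.1).im
    have : (2 * π * p.1).im = 2 * π * p.1.im := by
      rw [show (2 * π * p.1 : ℂ) = ((2 * π : ℝ) : ℂ) * p.1 by push_cast; ring,
        Complex.im_ofReal_mul]
    rw [Complex.sub_im, this]
    nlinarith [le_abs_self p.1.im]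
  have h3 : DifferentiableOn ℂ (fun p : ℂ × ℂ => FS (bN N) p.2) DF := by
    refine (FS_diff (bN_bd N)).comp (f := fun p : ℂ × ℂ => p.2) (by fun_prop) ?_
    intro p hp
    exact hp.1
  unfold rN
  exact ((by fun_prop : DifferentiableOn ℂ (fun p : ℂ × ℂ => -I * p.2 * p.1) DF).add
    (h1.sub h2)).add (DifferentiableOn.mul (by fun_prop) h3)

theorem unif {K : Set (ℂ × ℂ)} (hK : K ⊆ DF) (hc : IsCompact K) :
    TendstoUniformlyOn rN (fun p => RR p.1 p.2) atTop K := by
  rcases K.eq_empty_or_nonempty with rfl | hne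
  · exact tendstoUniformlyOn_empty
  have hpi := Real.pi_pos
  -- a lower bound for the imaginary parts
  obtain ⟨p0, hp0, hmin⟩ := hc.exists_isMinOn hne
    (f := fun p : ℂ × ℂ => p.2.im - 2 * π * |p.1.im|) (by fun_prop)
  obtain ⟨p1, hp1, hmax⟩ := hc.exists_isMaxOn hne (f := fun p : ℂ × ℂ => ‖p.1‖) (by fun_prop)
  set ε := p0.2.im - 2 * π * |p0.1.im| with hε
  have hε0 : 0 < ε := by
    have := (hK hp0).2.1
    rw [hε]; linarith
  set C := ‖p1.1‖ with hC
  have ta := FS_tend (c := aN) (c' := aI) (C := 2)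
    ((eventually_ge_atTop 1).mono fun N hN => aN_bd hN) aI_bd aN_lim hε0
  have tb := FS_tend (c := bN) (c' := fun _ => 0) (C := 2)
    (Eventually.of_forall fun N => bN_bd N) (by simp) bN_lim hε0
  have tt : Tendsto (fun N : ℕ => 2 * (∑' k : ℕ, ‖aN N k - aI k‖ * Real.exp (-ε) ^ (k + 1)) +
      C * ∑' k : ℕ, ‖bN N k - 0‖ * Real.exp (-ε) ^ (k + 1)) atTop (𝓝 0) := by
    have := (ta.const_mul 2).add (tb.const_mul C)
    simpa using this
  rw [Metric.tendstoUniformlyOn_iff]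
  intro η hη
  filter_upwards [eventually_ge_atTop 1, tt.eventually (gt_mem_nhds hη)] with N hN hlt p hp
  have hd := hK hp
  have hm1 : ε ≤ p.2.im - 2 * π * |p.1.im| := hmin hp
  have hm2 : ‖p.1‖ ≤ C := hmax hp
  have him : (2 * π * p.1).im = 2 * π * p.1.im := by
    rw [show (2 * π * p.1 : ℂ) = ((2 * π : ℝ) : ℂ) * p.1 by push_cast; ring,
      Complex.im_ofReal_mul]
  have i1 : ε ≤ (p.2 + 2 * π * p.1).im := by
    rw [Complex.add_im, him]
    nlinarith [neg_abs_le p.1.im]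
  have i2 : ε ≤ (p.2 - 2 * π * p.1).im := by
    rw [Complex.sub_im, him]
    nlinarith [le_abs_self p.1.im]
  have i3 : ε ≤ p.2.im := by
    have := mul_nonneg (mul_nonneg (zero_le_two (α := ℝ)) hpi.le) (abs_nonneg p.1.im)
    linarith
  have b1 := FS_sub (aN_bd hN) aI_bd hε0 i1
  have b2 := FS_sub (aN_bd hN) aI_bd hε0 i2
  have b3 := FS_sub (c := bN N) (c' := fun _ => 0) (C := 2) (bN_bd N) (by simp) hε0 i3
  have hz : FS (fun _ => 0) p.2 = 0 := by
    unfold FS; simp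
  rw [hz, sub_zero] at b3
  rw [RR_eq hd, dist_comm, dist_eq_norm]
  have e : rN N p - (-I * p.2 * p.1 + (FS aI (p.2 + 2 * π * p.1) - FS aI (p.2 - 2 * π * p.1))) =
      (FS (aN N) (p.2 + 2 * π * p.1) - FS aI (p.2 + 2 * π * p.1)) -
      (FS (aN N) (p.2 - 2 * π * p.1) - FS aI (p.2 - 2 * π * p.1)) + p.1 * FS (bN N) p.2 := by
    unfold rN; ring
  rw [e]
  refine lt_of_le_of_lt ?_ hlt
  refine (norm_add_le _ _).trans (add_le_add ((norm_sub_le _ _).trans ?_) ?_)
  · linarith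
  · rw [norm_mul]
    exact mul_le_mul hm2 b3 (norm_nonneg _) ((norm_nonneg _).trans hm2)

theorem fou : S_FOU :=
  ⟨rN, fun N hN => rN_diff hN, fun N d hN φ h => Rp_eq hN h.1 d, fun K hK hc => unif hK hc⟩

end Pool.Agent.N402.VS
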