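import Pool.Agent.N402.VS.Coef

/-! # The function `LL` in the upper half plane -/

set_option autoImplicit false
set_option linter.all false

namespace Pool.Agent.N402.VS

open Filter Topology Complex MeasureTheory
open scoped Real Interval
open Pool.Agent.N561 (LL RR DF)

/-- `log (2 cos z)` in the upper half plane -/
theorem log_cos {z : ℂ} (hz : 0 < z.im) (hx : |z.re| < π) :
    Complex.log (2 * Complex.cos z) = -(I * z) + Complex.log (1 + Complex.exp (2 * I * z)) := by
  set w : ℂ := 1 + Complex.exp (2 * I * z) with hw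
  set x := z.re with hxx
  set y := z.im with hyy
  set ρ := Real.exp (-(2 * y)) with hρ
  have hρ0 : 0 < ρ := Real.exp_pos _
  have hρ1 : ρ < 1 := by rw [hρ, Real.exp_lt_one_iff]; linarith
  have hre : (2 * I * z).re = -(2 * y) := by simp [Complex.mul_re, Complex.mul_im, hyy]
  have him : (2 * I * z).im = 2 * x := by simp [Complex.mul_re, Complex.mul_im, hxx]
  have hwre : w.re = 1 + ρ * Real.cos (2 * x) := by
    rw [hw, Complex.add_re, Complex.one_re, Complex.exp_re, hre, him]
  have hwim : w.im = ρ * Real.sin (2 * x) := by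
    rw [hw, Complex.add_im, Complex.one_im, Complex.exp_im, hre, him, zero_add]
  have hwpos : 0 < w.re := by
    rw [hwre]
    nlinarith [Real.neg_one_le_cos (2 * x)]
  have hw0 : w ≠ 0 := by
    intro h; rw [h] at hwpos; simp at hwpos
  have hnw : 0 < ‖w‖ := norm_pos_iff.2 hw0
  set θ := Complex.arg w with hθ
  have hθ2 : |θ| < π / 2 := Complex.abs_arg_lt_pi_div_two_iff.2 (Or.inl hwpos)
  obtain ⟨hθa, hθb⟩ := abs_lt.1 hθ2
  obtain ⟨hxa, hxb⟩ := abs_lt.1 hx
  have hcosθ : ‖w‖ * Real.cos θ = w.re := by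
    rw [hθ, Complex.cos_arg hw0]; field_simp
  have hsinθ : ‖w‖ * Real.sin θ = w.im := by
    rw [hθ, Complex.sin_arg]; field_simp
  have hkey : ‖w‖ * Real.sin (θ - x) = -(1 - ρ) * Real.sin x := by
    rw [Real.sin_sub]
    have : ‖w‖ * (Real.sin θ * Real.cos x - Real.cos θ * Real.sin x) =
      (‖w‖ * Real.sin θ) * Real.cos x - (‖w‖ * Real.cos θ) * Real.sin x := by ring
    rw [this, hcosθ, hsinθ, hwre, hwim, Real.sin_two_mul, Real.cos_two_mul]
    have hsc := Real.sin_sq_add_cos_sq x
    linear_combination 0 * hsc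
  have h1 : -π < (-(I * z) + Complex.log w).im := by
    have e : (-(I * z) + Complex.log w).im = θ - x := by
      simp [Complex.log_im, hθ, hxx]; ring
    rw [e]
    by_contra hcon
    push Not at hcon
    have hx2 : π / 2 < x := by linarith
    have hs1 : 0 ≤ Real.sin (θ - x) := by
      have : Real.sin (θ - x) = Real.sin (-π - (θ - x)) := by
        rw [Real.sin_sub (-π), Real.sin_neg, Real.sin_pi, Real.cos_neg, Real.cos_pi]; ring
      rw [this]
      exact Real.sin_nonneg_of_nonneg_of_le_pi (by linarith) (by linarith)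
    have hs2 : 0 < Real.sin x := Real.sin_pos_of_pos_of_lt_pi (by linarith [Real.pi_pos]) hxb
    nlinarith [mul_nonneg hnw.le hs1, mul_pos (sub_pos.2 hρ1) hs2]
  have h2 : (-(I * z) + Complex.log w).im ≤ π := by
    have e : (-(I * z) + Complex.log w).im = θ - x := by
      simp [Complex.log_im, hθ, hxx]; ring
    rw [e]
    by_contra hcon
    push Not at hcon
    have hx2 : x < -(π / 2) := by linarith
    have hs1 : Real.sin (θ - x) ≤ 0 := by
      have : Real.sin (θ - x) = - Real.sin (θ - x - π) := by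
        rw [Real.sin_sub_pi]; ring
      rw [this]
      have := Real.sin_nonneg_of_nonneg_of_le_pi (x := θ - x - π) (by linarith) (by linarith)
      linarith
    have hs2 : Real.sin x < 0 := Real.sin_neg_of_neg_of_neg_pi_lt (by linarith [Real.pi_pos]) hxa
    nlinarith [mul_nonneg hnw.le (neg_nonneg.2 hs1), mul_pos (sub_pos.2 hρ1) (neg_pos.2 hs2)]
  have h3 := Complex.log_exp h1 h2
  rw [← h3]
  congr 1
  rw [Complex.exp_add, Complex.exp_log hw0, hw, mul_add, mul_one, ← Complex.exp_add]
  have e1 : -(I * z) + 2 * I * z = z * I := by ring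
  have e2 : -(I * z) = -z * I := by ring
  rw [e1, e2, Complex.two_cos]
  ring

/-- the primitive -/
noncomputable def Pf (w : ℂ) (t : ℝ) : ℂ :=
  ∑' k : ℕ, (-1) ^ k * Complex.exp (2 * I * (k + 1) * w * t) / (2 * I * (k + 1) * (k + 1))

theorem norm_term {w : ℂ} (k : ℕ) (t : ℝ) :
    ‖Complex.exp (2 * I * (k + 1) * w * t)‖ = Real.exp (-(2 * w.im * t)) ^ (k + 1) := by
  rw [Complex.norm_exp, ← Real.exp_nat_mul]
  congr 1
  simp [Complex.mul_re, Complex.mul_im]
  ring

theorem norm_den (k : ℕ) : ‖(2 * I * ((k : ℂ) + 1) * (k + 1))‖ = 2 * ((k : ℝ) + 1) ^ 2 := by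
  have h2 : ‖((k : ℂ) + 1)‖ = k + 1 := by
    rw [← Nat.cast_add_one, Complex.norm_natCast]; push_cast; ring
  rw [norm_mul, norm_mul, norm_mul, Complex.norm_I, h2]
  simp
  ring

theorem sum_sq : Summable fun k : ℕ => 1 / (2 * ((k : ℝ) + 1) ^ 2) := by
  have h1 : Summable fun k : ℕ => 1 / ((k : ℝ) + 1) ^ 2 := by
    have := (summable_nat_add_iff 1).2 (Real.summable_one_div_nat_pow.2 (le_refl 2))
    simpa using this
  have h2 := h1.mul_left (1 / 2)
  refine h2.congr fun k => ?_
  field_simp

theorem Pf_cont {w : ℂ} (hw : 0 < w.im) : ContinuousOn (Pf w) (Set.Ici 0) := by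
  refine continuousOn_tsum (u := fun k : ℕ => 1 / (2 * ((k : ℝ) + 1) ^ 2)) ?_ sum_sq ?_
  · intro k
    fun_prop
  · intro k t ht
    rw [norm_div, norm_den, norm_mul, norm_pow, norm_neg, norm_one, one_pow, one_mul, norm_term]
    refine div_le_div_of_nonneg_right ?_ (by positivity)
    refine pow_le_one₀ (Real.exp_pos _).le ?_
    rw [Real.exp_le_one_iff]
    have : (0 : ℝ) ≤ t := ht
    nlinarith [mul_nonneg hw.le this]

theorem Pf_deriv {w : ℂ} (hw : 0 < w.im) {t : ℝ} (ht : 0 < t) :
    HasDerivAt (Pf w) (w * Complex.log (1 + Complex.exp (2 * I * w * t))) t := by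
  set ε := w.im * t with hε
  have hε0 : 0 < ε := mul_pos hw ht
  have h1 : HasDerivAt (Pf w) (∑' k : ℕ, w * ((-1) ^ k *
      Complex.exp (2 * I * (k + 1) * w * t) / (k + 1))) t := by
    refine hasDerivAt_tsum_of_isPreconnected (𝕜 := ℝ) (F := ℂ)
      (g := fun (k : ℕ) (t : ℝ) => (-1) ^ k * Complex.exp (2 * I * (k + 1) * w * t) /
        (2 * I * (k + 1) * (k + 1)))
      (g' := fun (k : ℕ) (t : ℝ) => w * ((-1) ^ k *
        Complex.exp (2 * I * (k + 1) * w * t) / (k + 1)))
      (t := Set.Ioi (t / 2)) (y₀ := t)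
      (u := fun k : ℕ => ‖w‖ * Real.exp (-ε) ^ (k + 1)) ((sum_geo hε0).mul_left _) isOpen_Ioi
      isPreconnected_Ioi ?_ ?_ (half_lt_self ht) ?_ (half_lt_self ht)
    · intro k y _
      have hk : (k : ℂ) + 1 ≠ 0 := by exact_mod_cast Nat.succ_ne_zero k
      have hI := Complex.I_ne_zero
      have h2 : HasDerivAt (fun y : ℝ => (2 * I * ((k : ℂ) + 1) * w * (y : ℂ)))
          (2 * I * ((k : ℂ) + 1) * w * 1) y :=
        (Complex.ofRealCLM.hasDerivAt (x := y)).const_mul _
      have h3 := ((h2.cexp).const_mul ((-1 : ℂ) ^ k)).div_const (2 * I * (k + 1) * (k + 1))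
      have e : w * ((-1) ^ k * Complex.exp (2 * I * (k + 1) * w * y) / (k + 1)) =
          (-1) ^ k * (Complex.exp (2 * I * (k + 1) * w * y) * (2 * I * (k + 1) * w * 1)) /
            (2 * I * (k + 1) * (k + 1)) := by
        field_simp
      show HasDerivAt (fun t : ℝ => (-1) ^ k * Complex.exp (2 * I * (k + 1) * w * t) /
        (2 * I * (k + 1) * (k + 1))) (w * ((-1) ^ k *
        Complex.exp (2 * I * (k + 1) * w * y) / (k + 1))) y
      rw [e]
      exact h3
    · intro k y hy
      have hy' : t / 2 < y := hy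
      have h2 : ‖((k : ℂ) + 1)‖ = k + 1 := by
        rw [← Nat.cast_add_one, Complex.norm_natCast]; push_cast; ring
      rw [norm_mul, norm_div, norm_mul, norm_pow, norm_neg, norm_one, one_pow, one_mul, norm_term,
        h2]
      refine mul_le_mul_of_nonneg_left ?_ (norm_nonneg _)
      have h4 : Real.exp (-(2 * w.im * y)) ^ (k + 1) ≤ Real.exp (-ε) ^ (k + 1) := by
        refine pow_le_pow_left₀ (Real.exp_pos _).le (Real.exp_le_exp.2 ?_) _
        rw [hε]
        nlinarith
      refine le_trans (div_le_self (by positivity) ?_) h4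
      have : (0 : ℝ) ≤ k := Nat.cast_nonneg k
      linarith
    · refine Summable.of_norm_bounded sum_sq fun k => ?_
      rw [norm_div, norm_den, norm_mul, norm_pow, norm_neg, norm_one, one_pow, one_mul, norm_term]
      refine div_le_div_of_nonneg_right ?_ (by positivity)
      refine pow_le_one₀ (Real.exp_pos _).le ?_
      rw [Real.exp_le_one_iff]
      nlinarith
  have hnorm : ‖Complex.exp (2 * I * w * t)‖ < 1 := by
    have := norm_term (w := w) 0 t
    simp only [Nat.cast_zero, zero_add, mul_one, pow_one] at this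
    rw [this, Real.exp_lt_one_iff]
    nlinarith
  have h5 : HasSum (fun k : ℕ => (-1) ^ k * Complex.exp (2 * I * (k + 1) * w * t) / ((k : ℂ) + 1))
      (Complex.log (1 + Complex.exp (2 * I * w * t))) := by
    have h6 := Complex.hasSum_taylorSeries_log hnorm
    rw [← hasSum_nat_add_iff' 1] at h6
    simp only [Finset.range_one, Finset.sum_singleton, Nat.cast_zero, div_zero, sub_zero] at h6
    have e : (fun k : ℕ => (-1) ^ k * Complex.exp (2 * I * (k + 1) * w * t) / ((k : ℂ) + 1)) =
        fun k : ℕ => (-1) ^ (k + 1 + 1) * Complex.exp (2 * I * w * t) ^ (k + 1) /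
          ((k + 1 : ℕ) : ℂ) := by
      funext k
      have e1 : Complex.exp (2 * I * w * t) ^ (k + 1) =
          Complex.exp (2 * I * (k + 1) * w * t) := by
        rw [← Complex.exp_nat_mul]
        congr 1
        push_cast
        ring
      rw [e1, pow_succ, pow_succ]
      push_cast
      ring
    rw [e]
    exact h6
  convert h1 using 1
  rw [tsum_mul_left, h5.tsum_eq]

/-- `LL` in the upper half plane -/
theorem LL_up {w : ℂ} (hw : 0 < w.im) (hx : |w.re| < π) :
    LL w = -I * w ^ 2 / 2 + (Pf w 1 - Pf w 0) := by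
  unfold LL
  have hcont : Continuous fun t : ℝ => 1 + Complex.exp (2 * I * w * t) := by fun_prop
  have hslit : ∀ t ∈ Set.uIcc (0:ℝ) 1, 1 + Complex.exp (2 * I * w * t) ∈ Complex.slitPlane := by
    intro t ht
    rw [Set.uIcc_of_le zero_le_one] at ht
    left
    rcases eq_or_lt_of_le ht.1 with h | h
    · rw [← h]; simp
    · have h1 : ‖Complex.exp (2 * I * w * t)‖ < 1 := by
        have := norm_term (w := w) 0 t
        simp only [Nat.cast_zero, zero_add, mul_one, pow_one] at this
        rw [this, Real.exp_lt_one_iff]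
        nlinarith
      have h2 := (abs_le.1 (Complex.abs_re_le_norm (Complex.exp (2 * I * w * t)))).1
      rw [Complex.add_re, Complex.one_re]
      linarith
  have hlogc : ContinuousOn (fun t : ℝ => Complex.log (1 + Complex.exp (2 * I * w * t)))
      (Set.uIcc 0 1) := fun t ht => (hcont.continuousAt.clog (hslit t ht)).continuousWithinAt
  have hint1 : IntervalIntegrable (fun t : ℝ => w * Complex.log (1 + Complex.exp (2 * I * w * t)))
      volume 0 1 := (continuousOn_const.mul hlogc).intervalIntegrable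
  have hftc : ∫ t in (0:ℝ)..1, w * Complex.log (1 + Complex.exp (2 * I * w * t)) =
      Pf w 1 - Pf w 0 := by
    refine intervalIntegral.integral_eq_sub_of_hasDerivAt_of_le zero_le_one
      ((Pf_cont hw).mono Set.Icc_subset_Ici_self) (fun t ht => Pf_deriv hw ht.1) hint1
  have hcongr : ∫ t in (0:ℝ)..1, Complex.log (2 * Complex.cos (t * w)) =
      ∫ t in (0:ℝ)..1, (-(I * w) * t + Complex.log (1 + Complex.exp (2 * I * w * t))) := by
    refine intervalIntegral.integral_congr_ae (Filter.Eventually.of_forall fun t ht => ?_)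
    rw [Set.uIoc_of_le zero_le_one] at ht
    have h1 : 0 < ((t : ℂ) * w).im := by
      rw [Complex.im_ofReal_mul]
      exact mul_pos ht.1 hw
    have h2 : |((t : ℂ) * w).re| < π := by
      rw [Complex.re_ofReal_mul, abs_mul, abs_of_pos ht.1]
      exact lt_of_le_of_lt (mul_le_of_le_one_left (abs_nonneg _) ht.2) hx
    have h3 := log_cos h1 h2
    show Complex.log (2 * Complex.cos (t * w)) = -(I * w) * t + Complex.log (1 + Complex.exp (2 * I * w * t))
    rw [h3]
    have e1 : 2 * I * ((t : ℂ) * w) = 2 * I * w * t := by ring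
    rw [e1]
    ring
  rw [hcongr, ← intervalIntegral.integral_const_mul]
  have h4 : ∀ t : ℝ, w * (-(I * w) * t + Complex.log (1 + Complex.exp (2 * I * w * t))) =
      -(I * w ^ 2) * t + w * Complex.log (1 + Complex.exp (2 * I * w * t)) := by
    intro t; ring
  simp_rw [h4]
  rw [intervalIntegral.integral_add (Continuous.intervalIntegrable (by fun_prop) _ _) hint1, hftc,
    intervalIntegral.integral_const_mul]
  have h5 : ∫ t in (0:ℝ)..1, (t : ℂ) = 1 / 2 := by
    rw [intervalIntegral.integral_ofReal, integral_id]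
    push_cast
    norm_num
  rw [h5]
  ring

theorem LL_neg (w : ℂ) : LL (-w) = -LL w := by
  unfold LL
  have : ∀ t : ℝ, Complex.cos (t * -w) = Complex.cos (t * w) := by
    intro t
    rw [mul_neg, Complex.cos_neg]
  simp_rw [this]
  ring

theorem Pf_sub {w w' : ℂ} (hw : 0 < w.im) (hw' : 0 < w'.im) :
    ((Pf w 1 - Pf w 0) - (Pf w' 1 - Pf w' 0)) / π = FS aI (2 * w) - FS aI (2 * w') := by
  have h0 : Pf w 0 = Pf w' 0 := by
    unfold Pf
    simp
  have key : ∀ v : ℂ, 0 < v.im → Pf v 1 / π = FS aI (2 * v) := by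
    intro v hv
    unfold Pf FS
    rw [← tsum_div_const]
    refine tsum_congr fun k => ?_
    unfold aI
    have hk : (k : ℂ) + 1 ≠ 0 := by exact_mod_cast Nat.succ_ne_zero k
    have hpi : (π : ℂ) ≠ 0 := by exact_mod_cast Real.pi_ne_zero
    have hI := Complex.I_ne_zero
    have e : 2 * I * ((k : ℂ) + 1) * v * ((1 : ℝ) : ℂ) = I * (k + 1) * (2 * v) := by
      push_cast; ring
    rw [e]
    field_simp
  rw [h0, sub_sub_sub_cancel_right, sub_div, key w hw, key w' hw']

/-- the limit -/
theorem RR_eq {p : ℂ × ℂ} (hp : p ∈ DF) :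
    RR p.1 p.2 = -I * p.2 * p.1 + (FS aI (p.2 + 2 * π * p.1) - FS aI (p.2 - 2 * π * p.1)) := by
  obtain ⟨δ, φ⟩ := p
  obtain ⟨h1, h2, h3⟩ := hp
  simp only at h1 h2 h3 ⊢
  have hpi := Real.pi_pos
  set w : ℂ := π * δ + φ / 2 with hw
  set w' : ℂ := φ / 2 - π * δ with hw'
  have him : (φ / 2).im = φ.im / 2 := by
    rw [show (φ / 2 : ℂ) = φ / ((2 : ℝ) : ℂ) by norm_num, Complex.div_ofReal_im]
  have hre : (φ / 2).re = φ.re / 2 := by
    rw [show (φ / 2 : ℂ) = φ / ((2 : ℝ) : ℂ) by norm_num, Complex.div_ofReal_re]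
  have hwi : w.im = π * δ.im + φ.im / 2 := by
    rw [hw, Complex.add_im, Complex.im_ofReal_mul, him]
  have hwi' : w'.im = φ.im / 2 - π * δ.im := by
    rw [hw', Complex.sub_im, Complex.im_ofReal_mul, him]
  have hwr : w.re = π * δ.re + φ.re / 2 := by
    rw [hw, Complex.add_re, Complex.re_ofReal_mul, hre]
  have hwr' : w'.re = φ.re / 2 - π * δ.re := by
    rw [hw', Complex.sub_re, Complex.re_ofReal_mul, hre]
  have ha := abs_le.1 (le_refl |δ.im|)
  have hi1 : 0 < w.im := by rw [hwi]; nlinarith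
  have hi2 : 0 < w'.im := by rw [hwi']; nlinarith
  have hb := abs_le.1 (le_refl |δ.re|)
  have hc := abs_le.1 (le_refl |φ.re|)
  have hr1 : |w.re| < π := by
    rw [hwr, abs_lt]; constructor <;> nlinarith
  have hr2 : |w'.re| < π := by
    rw [hwr', abs_lt]; constructor <;> nlinarith
  have e1 : (π : ℂ) * δ - φ / 2 = -w' := by rw [hw']; ring
  unfold RR
  rw [e1, LL_neg, LL_up hi1 hr1, LL_up hi2 hr2]
  have e2 : φ + 2 * π * δ = 2 * w := by rw [hw]; ring
  have e3 : φ - 2 * π * δ = 2 * w' := by rw [hw']; ring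
  rw [e2, e3, ← Pf_sub hi1 hi2]
  have hpi' : (π : ℂ) ≠ 0 := by exact_mod_cast Real.pi_ne_zero
  field_simp
  rw [hw, hw']
  ring

end Pool.Agent.N402.VS
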