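import Mathlib

/-! # Fourier series in the upper half plane -/

set_option autoImplicit false
set_option linter.all false

namespace Pool.Agent.N402.VS

open Filter Topology Complex
open scoped Real

/-- the series `∑ c_k e^{i (k+1) z}` -/
noncomputable def FS (c : ℕ → ℂ) (z : ℂ) : ℂ := ∑' k : ℕ, c k * Complex.exp (I * (k + 1) * z)

theorem norm_ex (k : ℕ) (z : ℂ) :
    ‖Complex.exp (I * (k + 1) * z)‖ = Real.exp (-z.im) ^ (k + 1) := by
  rw [Complex.norm_exp, ← Real.exp_nat_mul]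
  congr 1
  simp [Complex.mul_re, Complex.mul_im]

theorem sum_geo {ε : ℝ} (hε : 0 < ε) : Summable fun k : ℕ => Real.exp (-ε) ^ (k + 1) := by
  have h1 : Real.exp (-ε) < 1 := by rw [Real.exp_lt_one_iff]; linarith
  exact (summable_nat_add_iff 1).2 (summable_geometric_of_lt_one (Real.exp_pos _).le h1)

theorem bd_term {c : ℕ → ℂ} {C ε : ℝ} (hc : ∀ k, ‖c k‖ ≤ C) {z : ℂ} (hz : ε ≤ z.im) (k : ℕ) :
    ‖c k * Complex.exp (I * (k + 1) * z)‖ ≤ C * Real.exp (-ε) ^ (k + 1) := by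
  rw [norm_mul, norm_ex]
  have h0 : 0 ≤ C := (norm_nonneg _).trans (hc 0)
  refine mul_le_mul (hc k) ?_ (by positivity) h0
  exact pow_le_pow_left₀ (Real.exp_pos _).le (Real.exp_le_exp.2 (by linarith)) _

theorem FS_summable {c : ℕ → ℂ} {C : ℝ} (hc : ∀ k, ‖c k‖ ≤ C) {z : ℂ} (hz : 0 < z.im) :
    Summable fun k : ℕ => c k * Complex.exp (I * (k + 1) * z) :=
  Summable.of_norm_bounded ((sum_geo hz).mul_left C) fun k => bd_term hc le_rfl k

theorem FS_hasSum {c : ℕ → ℂ} {C : ℝ} (hc : ∀ k, ‖c k‖ ≤ C) {z : ℂ} (hz : 0 < z.im) :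
    HasSum (fun k : ℕ => c k * Complex.exp (I * (k + 1) * z)) (FS c z) :=
  (FS_summable hc hz).hasSum

theorem FS_diff {c : ℕ → ℂ} {C : ℝ} (hc : ∀ k, ‖c k‖ ≤ C) :
    DifferentiableOn ℂ (FS c) {z | 0 < z.im} := by
  intro z hz
  have hz' : 0 < z.im := hz
  have hU : IsOpen {w : ℂ | z.im / 2 < w.im} := isOpen_lt continuous_const Complex.continuous_im
  have h1 : DifferentiableOn ℂ (FS c) {w : ℂ | z.im / 2 < w.im} := by
    refine differentiableOn_tsum_of_summable_norm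
      ((sum_geo (half_pos hz')).mul_left C) ?_ hU ?_
    · intro k
      fun_prop
    · intro k w hw
      exact bd_term hc (le_of_lt hw) k
  have h2 : z ∈ {w : ℂ | z.im / 2 < w.im} := by
    show z.im / 2 < z.im
    linarith
  exact (h1.differentiableAt (hU.mem_nhds h2)).differentiableWithinAt

/-- the majorant of the difference of two series in `ε ≤ Im z` -/
theorem FS_sub {c c' : ℕ → ℂ} {C : ℝ} (hc : ∀ k, ‖c k‖ ≤ C) (hc' : ∀ k, ‖c' k‖ ≤ C) {ε : ℝ}
    (hε : 0 < ε) {z : ℂ} (hz : ε ≤ z.im) :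
    ‖FS c z - FS c' z‖ ≤ ∑' k : ℕ, ‖c k - c' k‖ * Real.exp (-ε) ^ (k + 1) := by
  have hz0 : 0 < z.im := hε.trans_le hz
  have h1 : FS c z - FS c' z = ∑' k : ℕ, (c k - c' k) * Complex.exp (I * (k + 1) * z) := by
    rw [FS, FS, ← (FS_summable hc hz0).tsum_sub (FS_summable hc' hz0)]
    refine tsum_congr fun k => ?_
    ring
  rw [h1]
  have hs : Summable fun k : ℕ => ‖c k - c' k‖ * Real.exp (-ε) ^ (k + 1) := by
    refine Summable.of_nonneg_of_le (fun k => by positivity) (fun k => ?_)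
      ((sum_geo hε).mul_left (2 * C))
    refine mul_le_mul_of_nonneg_right ?_ (by positivity)
    calc ‖c k - c' k‖ ≤ ‖c k‖ + ‖c' k‖ := norm_sub_le _ _
      _ ≤ 2 * C := by linarith [hc k, hc' k]
  refine tsum_of_norm_bounded hs.hasSum fun k => ?_
  rw [norm_mul, norm_ex]
  refine mul_le_mul_of_nonneg_left ?_ (norm_nonneg _)
  exact pow_le_pow_left₀ (Real.exp_pos _).le (Real.exp_le_exp.2 (by linarith)) _

theorem FS_tend {c : ℕ → ℕ → ℂ} {c' : ℕ → ℂ} {C : ℝ} (hc : ∀ᶠ N in atTop, ∀ k, ‖c N k‖ ≤ C)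
    (hc' : ∀ k, ‖c' k‖ ≤ C) (hlim : ∀ k, Tendsto (fun N => c N k) atTop (𝓝 (c' k)))
    {ε : ℝ} (hε : 0 < ε) :
    Tendsto (fun N => ∑' k : ℕ, ‖c N k - c' k‖ * Real.exp (-ε) ^ (k + 1)) atTop (𝓝 0) := by
  have h0 : (0 : ℝ) = ∑' k : ℕ, (0 : ℝ) := by simp
  rw [h0]
  refine tendsto_tsum_of_dominated_convergence ((sum_geo hε).mul_left (2 * C)) ?_ ?_
  · intro k
    have h1 : Tendsto (fun N => ‖c N k - c' k‖ * Real.exp (-ε) ^ (k + 1)) atTop
        (𝓝 (‖c' k - c' k‖ * Real.exp (-ε) ^ (k + 1))) :=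
      (((hlim k).sub_const _).norm).mul_const _
    simpa using h1
  · filter_upwards [hc] with N hN k
    rw [norm_mul, norm_norm, Real.norm_of_nonneg (by positivity)]
    refine mul_le_mul_of_nonneg_right ?_ (by positivity)
    calc ‖c N k - c' k‖ ≤ ‖c N k‖ + ‖c' k‖ := norm_sub_le _ _
      _ ≤ 2 * C := by linarith [hN k, hc' k]

end Pool.Agent.N402.VS
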